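import Mathlib

/-!
# Weak quasiperiodicity of morphisms generating quasiperiodic words (MP_c0e3d8, Q1)

If `f` generates a quasiperiodic infinite word `f^ω(a)` and `f(a)` is not a power of `a`, then `f`
is weakly quasiperiodic on infinite words.
-/

set_option autoImplicit false

namespace Pool.Agent.Results.MP_c0e3d8_co.WeakQuasi

variable {A : Type*}

/-- The finite word `v` is a prefix of the infinite word `w`. -/
def Pref (v : List A) (w : ℕ → A) : Prop := ∀ i (h : i < v.length), w i = v[i]

/-- The prefix of length `n` of an infinite word. -/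
def pre (w : ℕ → A) (n : ℕ) : List A := (List.range n).map w

/-- The infinite word `w` is covered by the occurrences of some finite word `x`. -/
def Quasiperiodic (w : ℕ → A) : Prop :=
  ∃ x : List A, ∀ p : ℕ, ∃ s, s ≤ p ∧ p < s + x.length ∧
    ∀ t (h : t < x.length), w (s + t) = x[t]

/-- `f(w)` is infinite and equal to `z`. -/
def IsImage (f : A → List A) (w z : ℕ → A) : Prop :=
  (∀ n, Pref ((pre w n).flatMap f) z) ∧ ∀ N, ∃ n, N ≤ ((pre w n).flatMap f).length

/-- The iterates of the morphism `f`. -/
def iter (f : A → List A) : ℕ → List A → List A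
  | 0, w => w
  | n + 1, w => (iter f n w).flatMap f

/-- `f` generates the infinite word `u = f^ω(a)`. -/
def Generates (f : A → List A) (a : A) (u : ℕ → A) : Prop :=
  (∃ v, f a = a :: v) ∧ (∀ N, ∃ n, N ≤ (iter f n [a]).length) ∧ ∀ n, Pref (iter f n [a]) u

/-- Some non-quasiperiodic infinite word is mapped to a quasiperiodic infinite word. -/
def WeaklyQuasiperiodic (f : A → List A) : Prop :=
  ∃ w z : ℕ → A, ¬ Quasiperiodic w ∧ IsImage f w z ∧ Quasiperiodic z

/-! ### Prefixes -/

lemma pre_length (w : ℕ → A) (n : ℕ) : (pre w n).length = n := by simp [pre]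

lemma Pref.of_prefix {v v' : List A} {w : ℕ → A} (h : Pref v' w) (hv : v <+: v') :
    Pref v w := by
  intro i hi
  rw [h i (lt_of_lt_of_le hi hv.length_le)]
  exact (hv.getElem hi).symm

lemma pref_prefix {v v' : List A} {w : ℕ → A} (h : Pref v w) (h' : Pref v' w)
    (hl : v.length ≤ v'.length) : v <+: v' := by
  rw [List.prefix_iff_getElem]
  refine ⟨hl, fun i hi => ?_⟩
  rw [← h i hi, ← h' i (by omega)]

lemma pref_pre (w : ℕ → A) (n : ℕ) : Pref (pre w n) w := by
  intro i hi
  simp [pre]

lemma flatMap_prefix (f : A → List A) {v v' : List A} (h : v <+: v') :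
    v.flatMap f <+: v'.flatMap f := by
  obtain ⟨t, rfl⟩ := h
  rw [List.flatMap_append]
  exact List.prefix_append _ _

lemma iter_append (f : A → List A) (n : ℕ) (v w : List A) :
    iter f n (v ++ w) = iter f n v ++ iter f n w := by
  induction n with
  | zero => rfl
  | succ n ih => simp only [iter, ih, List.flatMap_append]

section Gen

variable {f : A → List A} {a : A} {u : ℕ → A}

lemma iter_head (h : Generates f a u) (v : List A) (n : ℕ) :
    ∃ v', iter f n (a :: v) = a :: v' := by
  obtain ⟨⟨v0, hv0⟩, -, -⟩ := h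
  induction n with
  | zero => exact ⟨v, rfl⟩
  | succ n ih =>
    obtain ⟨v', hv'⟩ := ih
    exact ⟨v0 ++ v'.flatMap f, by rw [iter, hv', List.flatMap_cons, hv0]; rfl⟩

lemma pref_flatMap (h : Generates f a u) {v : List A} (hv : Pref v u) :
    Pref (v.flatMap f) u := by
  obtain ⟨n, hn⟩ := h.2.1 v.length
  have h1 := pref_prefix hv (h.2.2 n) hn
  exact (h.2.2 (n + 1)).of_prefix (flatMap_prefix f h1)

lemma pref_iter (h : Generates f a u) {v : List A} (hv : Pref v u) (n : ℕ) :
    Pref (iter f n v) u := by
  induction n with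
  | zero => exact hv
  | succ n ih => exact pref_flatMap h ih

lemma u_zero (h : Generates f a u) : u 0 = a := h.2.2 0 0 (by simp [iter])

/-- a factor of `u` at `i` is mapped to a factor of `u` -/
lemma factor_iter (h : Generates f a u) (n : ℕ) (v : List A) (i : ℕ)
    (hv : ∀ t (ht : t < v.length), u (i + t) = v[t]) :
    ∃ T, ∀ t (ht : t < (iter f n v).length), u (T + t) = (iter f n v)[t] := by
  have h1 : Pref (pre u i ++ v) u := by
    intro j hj
    rw [List.getElem_append]
    split_ifs with h2
    · exact pref_pre u i j h2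
    · rw [pre_length] at h2
      rw [← hv (j - (pre u i).length) (by
        rw [List.length_append, pre_length] at hj
        rw [pre_length]; omega)]
      congr 1
      rw [pre_length]; omega
  have h2 := pref_iter h h1 n
  rw [iter_append] at h2
  refine ⟨(iter f n (pre u i)).length, fun t ht => ?_⟩
  rw [h2 ((iter f n (pre u i)).length + t) (by rw [List.length_append]; omega),
    List.getElem_append_right (by omega)]
  congr 1; omega

end Gen

/-! ### Ultimately periodic words -/

/-- `R' R' ⋯ R'` (`m` times) -/
def rep (R' : List A) : ℕ → List A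
  | 0 => []
  | m + 1 => R' ++ rep R' m

lemma rep_length (R' : List A) (m : ℕ) : (rep R' m).length = m * R'.length := by
  induction m with
  | zero => simp [rep]
  | succ m ih => rw [rep, List.length_append, ih]; ring

lemma iter_rep (f : A → List A) (n : ℕ) (R' : List A) (m : ℕ) :
    iter f n (rep R' m) = rep (iter f n R') m := by
  induction m with
  | zero => induction n with
    | zero => rfl
    | succ n ih => rw [rep] at ih ⊢; rw [iter, ih]; rfl
  | succ m ih => rw [rep, iter_append, ih]; rfl

lemma rep_getD (R' : List A) (d : A) (m i : ℕ) (hi : i < m * R'.length) :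
    (rep R' m).getD i d = R'.getD (i % R'.length) d := by
  induction m generalizing i with
  | zero => simp at hi
  | succ m ih =>
    rw [rep]
    by_cases h : i < R'.length
    · rw [List.getD_append _ _ _ _ h, Nat.mod_eq_of_lt h]
    · have e : i % R'.length = (i - R'.length) % R'.length := Nat.mod_eq_sub_mod (by omega)
      rw [List.getD_append_right _ _ _ _ (by omega), ih (i - R'.length) (by
        rw [Nat.add_mul, one_mul] at hi; omega), e]

/-- the infinite word `R R' R' R' ⋯` -/
def mk (R R' : List A) (d : A) : ℕ → A := fun i =>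
  if i < R.length then R.getD i d else R'.getD ((i - R.length) % R'.length) d

lemma mk_lt (R R' : List A) (d : A) {i : ℕ} (hi : i < R.length) :
    mk R R' d i = R.getD i d := by
  unfold mk; rw [if_pos hi]

lemma mk_ge (R R' : List A) (d : A) (k j : ℕ) (hj : j < R'.length) :
    mk R R' d (R.length + k * R'.length + j) = R'.getD j d := by
  unfold mk
  rw [if_neg (by omega)]
  congr 1
  rw [show R.length + k * R'.length + j - R.length = j + k * R'.length by omega,
    Nat.add_mul_mod_self_right, Nat.mod_eq_of_lt hj]

lemma pref_mk (R R' : List A) (d : A) (m : ℕ) : Pref (R ++ rep R' m) (mk R R' d) := by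
  intro i hi
  rw [← List.getD_eq_getElem _ d hi]
  rw [List.length_append, rep_length] at hi
  by_cases h : i < R.length
  · rw [mk_lt _ _ _ h, List.getD_append _ _ _ _ h]
  · rw [List.getD_append_right _ _ _ _ (by omega), rep_getD _ _ _ _ (by omega)]
    unfold mk
    rw [if_neg h]

lemma isImage_mk (f : A → List A) (R R' : List A) (d : A) (h1 : R' ≠ [])
    (h2 : R'.flatMap f ≠ []) :
    IsImage f (mk R R' d) (mk (R.flatMap f) (R'.flatMap f) d) := by
  have key : ∀ m, (R ++ rep R' m).flatMap f = R.flatMap f ++ rep (R'.flatMap f) m := by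
    intro m
    rw [List.flatMap_append]
    congr 1
    exact iter_rep f 1 R' m
  have hl1 := List.length_pos_of_ne_nil h1
  have hl2 := List.length_pos_of_ne_nil h2
  constructor
  · intro n
    have h3 : pre (mk R R' d) n <+: R ++ rep R' n := by
      refine pref_prefix (pref_pre _ n) (pref_mk R R' d n) ?_
      rw [pre_length, List.length_append, rep_length]
      nlinarith
    refine Pref.of_prefix ?_ (flatMap_prefix f h3)
    rw [key]
    exact pref_mk _ _ d n
  · intro N
    refine ⟨R.length + N * R'.length, ?_⟩
    have h3 : pre (mk R R' d) (R.length + N * R'.length) = R ++ rep R' N := by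
      have e : (pre (mk R R' d) (R.length + N * R'.length)).length = (R ++ rep R' N).length := by
        rw [pre_length, List.length_append, rep_length]
      exact (pref_prefix (pref_pre _ _) (pref_mk R R' d N) e.le).eq_of_length e
    rw [h3, key, List.length_append, rep_length]
    nlinarith

/-! ### Covers -/

lemma quasi_iff (w : ℕ → A) : Quasiperiodic w ↔
    ∃ l, ∀ p, ∃ s, s ≤ p ∧ p < s + l ∧ ∀ t < l, w (s + t) = w t := by
  constructor
  · rintro ⟨x, hx⟩
    refine ⟨x.length, fun p => ?_⟩
    obtain ⟨s, h1, h2, h3⟩ := hx p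
    obtain ⟨s0, h4, h5, h6⟩ := hx 0
    have h0 : s0 = 0 := by omega
    subst h0
    refine ⟨s, h1, h2, fun t ht => ?_⟩
    rw [h3 t ht, ← h6 t ht, zero_add]
  · rintro ⟨l, hl⟩
    refine ⟨pre w l, fun p => ?_⟩
    obtain ⟨s, h1, h2, h3⟩ := hl p
    refine ⟨s, h1, by rw [pre_length]; exact h2, fun t ht => ?_⟩
    have ht' : t < l := by rwa [pre_length] at ht
    rw [h3 t ht']
    simp [pre]

lemma cover_of {u z : ℕ → A} {l : ℕ}
    (hu : ∀ p, ∃ s, s ≤ p ∧ p < s + l ∧ ∀ t < l, u (s + t) = u t)
    (h1 : ∀ t < l, z t = u t)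
    (h2 : ∀ p, l ≤ p → ∃ S T, S + l ≤ p ∧ ∀ j, S + j < p + l → z (S + j) = u (T + j)) :
    Quasiperiodic z := by
  rw [quasi_iff]
  refine ⟨l, fun p => ?_⟩
  by_cases hp : l ≤ p
  · obtain ⟨S, T, h3, h4⟩ := h2 p hp
    obtain ⟨s, h5, h6, h7⟩ := hu (T + (p - S))
    refine ⟨S + (s - T), by omega, by omega, fun t ht => ?_⟩
    rw [add_assoc, h4 (s - T + t) (by omega), show T + (s - T + t) = s + t by omega, h7 t ht,
      h1 t ht]
  · exact ⟨0, by omega, by omega, fun t ht => by rw [zero_add]⟩

/-- the word `r r' r' r' ⋯` is not quasiperiodic if `r ≠ r'` are blocks starting with `a` and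
containing no other `a` -/
lemma not_quasi {w : ℕ → A} {a : A} {m m' : ℕ} (hm : 0 < m) (hm' : 0 < m') (h0 : w 0 = a)
    (h1 : ∀ j, 0 < j → j < m → w j ≠ a) (h2 : w m = a)
    (h3 : ∀ j, 0 < j → j < m' → w (m + j) ≠ a)
    (h4 : ∀ k j, j < m' → w (m + k * m' + j) = w (m + j))
    (h5 : m = m' → ∃ j < m, w j ≠ w (m + j)) : ¬ Quasiperiodic w := by
  rw [quasi_iff]
  rintro ⟨l, hl⟩
  have hdec : ∀ s, m ≤ s → w s = a → ∃ k, s = m + k * m' := by
    intro s hs hsa
    refine ⟨(s - m) / m', ?_⟩
    have e1 := Nat.div_add_mod (s - m) m'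
    have e2 := Nat.mod_lt (s - m) hm'
    by_contra hne
    have e3 : 0 < (s - m) % m' := by
      rcases Nat.eq_zero_or_pos ((s - m) % m') with h | h
      · exfalso; apply hne; rw [mul_comm]; omega
      · exact h
    have e4 := h4 ((s - m) / m') ((s - m) % m') e2
    rw [mul_comm, show m + m' * ((s - m) / m') + (s - m) % m' = s by omega, hsa] at e4
    exact h3 _ e3 e2 e4.symm
  by_cases hlm : l ≤ m
  · obtain ⟨s, a1, a2, a3⟩ := hl (m - 1)
    have hs0 : s = 0 := by
      by_contra hne
      have := a3 0 (by omega)
      rw [add_zero, h0] at this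
      exact h1 s (by omega) (by omega) this
    subst hs0
    have hl' : l = m := by omega
    subst hl'
    obtain ⟨s, b1, b2, b3⟩ := hl (l + m' - 1)
    have hs : w s = a := by have := b3 0 hm; rwa [add_zero, h0] at this
    have hsl : l ≤ s := by
      by_contra hc
      have : s = 0 := by
        by_contra hne
        exact h1 s (by omega) (by omega) hs
      omega
    obtain ⟨k, rfl⟩ := hdec s hsl hs
    have hk : k = 0 := by
      by_contra hne
      have h6 : 1 ≤ k := by omega
      have := Nat.mul_le_mul_right m' h6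
      omega
    subst hk
    rw [zero_mul, add_zero] at b1 b2 b3
    have hmm : l = m' := by
      by_contra hne
      have c1 := b3 m' (by omega)
      have c2 := h4 1 0 hm'
      rw [one_mul, add_zero, add_zero, h2] at c2
      rw [c2] at c1
      exact h1 m' hm' (by omega) c1.symm
    obtain ⟨j, hj, hj'⟩ := h5 hmm
    exact hj' (b3 j hj).symm
  · obtain ⟨s, a1, a2, a3⟩ := hl (m + l)
    have hs : w s = a := by have := a3 0 (by omega); rwa [add_zero, h0] at this
    obtain ⟨k, rfl⟩ := hdec s (by omega) hs
    have hmm : m ≤ m' := by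
      by_contra hne
      have c1 := a3 m' (by omega)
      have c2 := h4 (k + 1) 0 hm'
      rw [add_zero, add_zero, h2, show m + (k + 1) * m' = m + k * m' + m' by ring, c1] at c2
      exact h1 m' hm' (by omega) c2
    have hmm' : m = m' := by
      by_contra hne
      have c1 := a3 m (by omega)
      rw [h4 k m (by omega), h2] at c1
      exact h3 m hm (by omega) c1
    obtain ⟨j, hj, hj'⟩ := h5 hmm'
    have c1 := a3 j (by omega)
    rw [h4 k j (by omega)] at c1
    exact hj' c1.symm

lemma chain {f : A → List A} {a : A} {u : ℕ → A} (h : Generates f a u) (R v : List A)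
    (hw : ¬ Quasiperiodic (mk R (a :: v) a)) (n : ℕ)
    (hz : Quasiperiodic (mk (iter f n R) (iter f n (a :: v)) a)) : WeaklyQuasiperiodic f := by
  by_contra hc
  have key : ∀ k, ¬ Quasiperiodic (mk (iter f k R) (iter f k (a :: v)) a) := by
    intro k
    induction k with
    | zero => exact hw
    | succ k ih =>
      intro hq
      refine hc ⟨_, _, ih, ?_, hq⟩
      refine isImage_mk f (iter f k R) (iter f k (a :: v)) a ?_ ?_
      · obtain ⟨v', hv'⟩ := iter_head h v k
        rw [hv']; simp
      · obtain ⟨v', hv'⟩ := iter_head h v (k + 1)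
        rw [iter] at hv'
        rw [hv']; simp
  exact key n hz

lemma quasi_mk {u : ℕ → A} {l : ℕ} {d : A}
    (hu : ∀ p, ∃ s, s ≤ p ∧ p < s + l ∧ ∀ t < l, u (s + t) = u t)
    (P R R' : List A) (hpos : 0 < P.length) (hP : 2 * l ≤ P.length) (hR : P <+: R)
    (hR' : P <+: R') (hRu : Pref R u) (T0 T1 : ℕ)
    (h0 : ∀ t < R.length + P.length, u (T0 + t) = (R ++ P).getD t d)
    (h1 : ∀ t < R'.length + P.length, u (T1 + t) = (R' ++ P).getD t d) :
    Quasiperiodic (mk R R' d) := by
  have lR := hR.length_le
  have lR' := hR'.length_le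
  have hPR' : ∀ j < P.length, R'.getD j d = P.getD j d := by
    intro j hj
    obtain ⟨X, rfl⟩ := hR'
    rw [List.getD_append _ _ _ _ hj]
  refine cover_of hu ?_ ?_
  · intro t ht
    rw [mk_lt _ _ _ (by omega), hRu t (by omega), List.getD_eq_getElem]
  · intro p hp
    by_cases hpR : p < R.length + l
    · refine ⟨0, T0, by omega, fun j hj => ?_⟩
      rw [zero_add] at hj ⊢
      rw [h0 j (by omega)]
      by_cases hjR : j < R.length
      · rw [mk_lt _ _ _ hjR, List.getD_append _ _ _ _ hjR]
      · rw [List.getD_append_right _ _ _ _ (by omega), ← hPR' _ (by omega)]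
        have := mk_ge R R' d 0 (j - R.length) (by omega)
        rwa [show R.length + 0 * R'.length + (j - R.length) = j by omega] at this
    · have e1 := Nat.div_add_mod (p - l - R.length) R'.length
      have e2 := Nat.mod_lt (p - l - R.length) (show 0 < R'.length by omega)
      rw [mul_comm] at e1
      set k := (p - l - R.length) / R'.length with hk
      refine ⟨R.length + k * R'.length, T1, by omega, fun j hj => ?_⟩
      rw [h1 j (by omega)]
      by_cases hjR : j < R'.length
      · rw [mk_ge _ _ _ _ _ hjR, List.getD_append _ _ _ _ hjR]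
      · rw [List.getD_append_right _ _ _ _ (by omega), ← hPR' _ (by omega)]
        have := mk_ge R R' d (k + 1) (j - R'.length) (by omega)
        rwa [show R.length + (k + 1) * R'.length + (j - R'.length) =
          R.length + k * R'.length + j by rw [Nat.add_mul, one_mul]; omega] at this

/-- the block of length `m` at position `i` -/
def blk (u : ℕ → A) (i m : ℕ) : List A := (List.range m).map fun t => u (i + t)

lemma blk_length (u : ℕ → A) (i m : ℕ) : (blk u i m).length = m := by simp [blk]

lemma blk_getD (u : ℕ → A) (i m t : ℕ) (d : A) (ht : t < m) : (blk u i m).getD t d = u (i + t) := by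
  rw [List.getD_eq_getElem _ _ (by rw [blk_length]; exact ht)]
  simp [blk]

lemma blk_cons (u : ℕ → A) (i m : ℕ) (hm : 0 < m) :
    blk u i m = u i :: (blk u i m).tail := by
  cases m with
  | zero => omega
  | succ m => simp [blk, List.range_succ_eq_map]

lemma blk_snoc (u : ℕ → A) (i m : ℕ) : blk u i (m + 1) = blk u i m ++ [u (i + m)] := by
  simp [blk, List.range_succ]

/-- **MP_c0e3d8, Q1.** If `f` generates a quasiperiodic infinite word `u = f^ω(a)` and `f(a)` is
not a power of `a`, then `f` is weakly quasiperiodic on infinite words. -/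
theorem result {A : Type*} (f : A → List A) (a : A) (u : ℕ → A) (h : Generates f a u)
    (hq : Quasiperiodic u) (hpow : ∀ k, f a ≠ List.replicate k a) :
    WeaklyQuasiperiodic f := by
  classical
  obtain ⟨l, hl⟩ := (quasi_iff u).mp hq
  have hu0 := u_zero h
  have hlpos : 0 < l := by obtain ⟨s, a1, a2, -⟩ := hl 0; omega
  -- returns to the letter `a`
  have hret : ∀ i, ∃ m, 0 < m ∧ u (i + m) = a := by
    intro i
    obtain ⟨s, a1, a2, a3⟩ := hl (i + l)
    refine ⟨s - i, by omega, ?_⟩
    rw [show i + (s - i) = s by omega, ← hu0, ← a3 0 hlpos, add_zero]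
  let nxt : ℕ → ℕ := fun i => Nat.find (hret i)
  have hn1 : ∀ i, 0 < nxt i := fun i => (Nat.find_spec (hret i)).1
  have hn2 : ∀ i, u (i + nxt i) = a := fun i => (Nat.find_spec (hret i)).2
  have hn3 : ∀ i j, 0 < j → j < nxt i → u (i + j) ≠ a := by
    intro i j hj hj' hc
    exact Nat.find_min (hret i) hj' ⟨hj, hc⟩
  have hd := hn1 0
  by_cases hcase : ∃ i, u i = a ∧ ¬ (nxt i = nxt 0 ∧ ∀ t < nxt 0, u (i + t) = u t)
  · -- two different return words
    obtain ⟨i, hi, hne⟩ := hcase
    have hr' : blk u i (nxt i) = a :: (blk u i (nxt i)).tail := by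
      conv_lhs => rw [blk_cons u i (nxt i) (hn1 i), hi]
    have hr : blk u 0 (nxt 0) = a :: (blk u 0 (nxt 0)).tail := by
      conv_lhs => rw [blk_cons u 0 (nxt 0) (hn1 0), hu0]
    have l0 := blk_length u 0 (nxt 0)
    have l1 := blk_length u i (nxt i)
    have hlt : ∀ j < nxt 0, mk (blk u 0 (nxt 0)) (blk u i (nxt i)) a j = u j := by
      intro j hj
      rw [mk_lt _ _ _ (by rw [l0]; exact hj), blk_getD _ _ _ _ _ hj, zero_add]
    have hge : ∀ k j, j < nxt i →
        mk (blk u 0 (nxt 0)) (blk u i (nxt i)) a (nxt 0 + k * nxt i + j) = u (i + j) := by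
      intro k j hj
      have := mk_ge (blk u 0 (nxt 0)) (blk u i (nxt i)) a k j (by rw [l1]; exact hj)
      rw [l0, l1] at this
      rw [this, blk_getD _ _ _ _ _ hj]
    have hge0 : ∀ j, j < nxt i →
        mk (blk u 0 (nxt 0)) (blk u i (nxt i)) a (nxt 0 + j) = u (i + j) := by
      intro j hj
      have := hge 0 j hj
      rwa [zero_mul, add_zero] at this
    have hnq : ¬ Quasiperiodic (mk (blk u 0 (nxt 0)) (blk u i (nxt i)) a) := by
      refine not_quasi (a := a) (m := nxt 0) (m' := nxt i) hd (hn1 i) ?_ ?_ ?_ ?_ ?_ ?_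
      · rw [hlt 0 hd, hu0]
      · intro j hj hj'
        rw [hlt j hj']
        have := hn3 0 j hj hj'
        rwa [zero_add] at this
      · have := hge0 0 (hn1 i)
        rw [add_zero, add_zero, hi] at this
        exact this
      · intro j hj hj'
        rw [hge0 j hj']
        exact hn3 i j hj hj'
      · intro k j hj
        rw [hge k j hj, hge0 j hj]
      · intro he
        by_contra hc
        apply hne
        refine ⟨he.symm, fun t ht => ?_⟩
        by_contra hc'
        refine hc ⟨t, ht, ?_⟩
        rw [hlt t ht, hge0 t (by omega)]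
        exact fun h => hc' h.symm
    obtain ⟨n, hn⟩ := h.2.1 (2 * l)
    rw [hr'] at hnq
    refine chain h _ _ hnq n ?_
    rw [← hr']
    obtain ⟨T0, hT0⟩ := factor_iter h n (blk u 0 (nxt 0 + 1)) 0 (by
      intro t ht
      rw [blk_length] at ht
      rw [← List.getD_eq_getElem _ a, blk_getD _ _ _ _ _ ht])
    obtain ⟨T1, hT1⟩ := factor_iter h n (blk u i (nxt i + 1)) i (by
      intro t ht
      rw [blk_length] at ht
      rw [← List.getD_eq_getElem _ a, blk_getD _ _ _ _ _ ht])
    rw [blk_snoc, iter_append, hn2] at hT0 hT1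
    refine quasi_mk (d := a) hl (iter f n [a]) _ _ (by omega) hn ?_ ?_ ?_ T0 T1 ?_ ?_
    · rw [hr, show a :: (blk u 0 (nxt 0)).tail = [a] ++ (blk u 0 (nxt 0)).tail from rfl,
        iter_append]
      exact List.prefix_append _ _
    · rw [hr', show a :: (blk u i (nxt i)).tail = [a] ++ (blk u i (nxt i)).tail from rfl,
        iter_append]
      exact List.prefix_append _ _
    · apply pref_iter h
      intro j hj
      have hj' : j < nxt 0 := by rwa [blk_length] at hj
      rw [← List.getD_eq_getElem _ a, blk_getD _ _ _ _ _ hj', zero_add]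
    · intro t ht
      rw [hT0 t (by rw [List.length_append]; exact ht), List.getD_eq_getElem]
    · intro t ht
      rw [hT1 t (by rw [List.length_append]; exact ht), List.getD_eq_getElem]
  · -- the word `u` is periodic
    have hall : ∀ i, u i = a → nxt i = nxt 0 ∧ ∀ t < nxt 0, u (i + t) = u t := by
      intro i hi
      by_contra hc
      exact hcase ⟨i, hi, hc⟩
    have hblocks : ∀ k, u (k * nxt 0) = a := by
      intro k
      induction k with
      | zero => rw [zero_mul]; exact hu0
      | succ k ih =>
        have h1 := hn2 (k * nxt 0)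
        rw [(hall _ ih).1] at h1
        rw [Nat.add_mul, one_mul]; exact h1
    have hper : ∀ k j, j < nxt 0 → u (k * nxt 0 + j) = u j := fun k j hj =>
      (hall _ (hblocks k)).2 j hj
    have hper' : ∀ k t, u (k * nxt 0 + t) = u t := by
      intro k t
      have e1 := Nat.div_add_mod t (nxt 0)
      rw [mul_comm] at e1
      have e2 := Nat.mod_lt t hd
      rw [← e1, ← add_assoc, ← Nat.add_mul, hper _ _ e2, hper _ _ e2]
    -- the period is at least two
    have hd2 : 2 ≤ nxt 0 := by
      by_contra hc
      have hd1 : nxt 0 = 1 := by omega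
      have hconst : ∀ i, u i = a := by
        intro i
        have := hblocks i
        rwa [hd1, mul_one] at this
      apply hpow (f a).length
      have h1 : Pref (f a) u := by
        have := h.2.2 1
        have e : iter f 1 [a] = f a := by simp [iter]
        rwa [e] at this
      apply List.ext_getElem
      · simp
      · intro j hj hj'
        rw [← h1 j hj, hconst]
        simp
    obtain ⟨n, hn⟩ := h.2.1 (nxt 0)
    have hr : blk u 0 (nxt 0) = a :: (blk u 0 (nxt 0)).tail := by
      conv_lhs => rw [blk_cons u 0 (nxt 0) (hn1 0), hu0]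
    have l0 := blk_length u 0 (nxt 0)
    have hge : ∀ k j, j < nxt 0 → mk [a] (blk u 0 (nxt 0)) a (1 + k * nxt 0 + j) = u j := by
      intro k j hj
      have := mk_ge [a] (blk u 0 (nxt 0)) a k j (by rw [l0]; exact hj)
      rw [l0, List.length_singleton] at this
      rw [this, blk_getD _ _ _ _ _ hj, zero_add]
    have hge0 : ∀ j, j < nxt 0 → mk [a] (blk u 0 (nxt 0)) a (1 + j) = u j := by
      intro j hj
      have := hge 0 j hj
      rwa [zero_mul, add_zero] at this
    have hnq : ¬ Quasiperiodic (mk [a] (blk u 0 (nxt 0)) a) := by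
      refine not_quasi (a := a) (m := 1) (m' := nxt 0) one_pos hd ?_ ?_ ?_ ?_ ?_ ?_
      · rw [mk_lt _ _ _ (by simp)]; rfl
      · intro j hj hj'; omega
      · have := hge0 0 hd
        rw [add_zero, hu0] at this
        exact this
      · intro j hj hj'
        rw [hge0 j hj']
        have := hn3 0 j hj hj'
        rwa [zero_add] at this
      · intro k j hj
        rw [hge k j hj, hge0 j hj]
      · intro he; omega
    rw [hr] at hnq
    refine chain h _ _ hnq n ?_
    rw [← hr]
    -- the image is `P u`
    set P := iter f n [a] with hPdef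
    set R' := iter f n (blk u 0 (nxt 0)) with hRdef
    have hPu : Pref P u := h.2.2 n
    have hRpos : 0 < R'.length := by
      obtain ⟨v', hv'⟩ := iter_head h (blk u 0 (nxt 0)).tail n
      rw [← hr] at hv'
      rw [hRdef, hv']; simp
    have hrep : ∀ m, Pref (rep R' m) u := by
      intro m
      rw [hRdef, ← iter_rep]
      apply pref_iter h
      intro j hj
      rw [← List.getD_eq_getElem _ a]
      rw [rep_length, l0] at hj
      rw [rep_getD _ _ _ _ (by rw [l0]; exact hj), l0, blk_getD _ _ _ _ _ (Nat.mod_lt _ hd),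
        zero_add]
      have e1 := Nat.div_add_mod j (nxt 0)
      rw [mul_comm] at e1
      conv_lhs => rw [← e1]
      exact hper' _ _
    have hz1 : ∀ j < P.length, mk P R' a j = u j := by
      intro j hj
      rw [mk_lt _ _ _ hj, hPu j hj, List.getD_eq_getElem]
    have hz2 : ∀ j, mk P R' a (P.length + j) = u j := by
      intro j
      have e1 := Nat.div_add_mod j R'.length
      rw [mul_comm] at e1
      have e2 := Nat.mod_lt j hRpos
      have h3 := mk_ge P R' a (j / R'.length) (j % R'.length) e2
      rw [add_assoc, e1] at h3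
      have h4 : j < (j / R'.length + 1) * R'.length := by rw [Nat.add_mul, one_mul]; omega
      have h5 := hrep (j / R'.length + 1) j (by rw [rep_length]; exact h4)
      rw [← List.getD_eq_getElem _ a, rep_getD _ _ _ _ h4] at h5
      rw [h3, h5]
    rw [quasi_iff]
    refine ⟨P.length, fun p => ?_⟩
    by_cases hp : p < P.length
    · exact ⟨0, by omega, by omega, fun t _ => by rw [zero_add]⟩
    · have e1 := Nat.div_add_mod (p - P.length) (nxt 0)
      rw [mul_comm] at e1
      have e2 := Nat.mod_lt (p - P.length) hd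
      refine ⟨P.length + (p - P.length) / nxt 0 * nxt 0, by omega, by omega, fun t ht => ?_⟩
      rw [add_assoc, hz2, hper', hz1 t ht]

end Pool.Agent.Results.MP_c0e3d8_co.WeakQuasi
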